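import Pool.Agent.W_MP_cae956.Final

set_option autoImplicit false

/-! # A transitive element of a weakly mixing commutative action is weakly mixing -/

namespace Pool.Agent.W_helper59_cae956

open Pool.Agent.W_MP_cae956

/-- If the commutative group generated by the maps `T j` acts weakly mixingly (some point of
`X × X` has a dense orbit), every element of it which has a dense orbit is weakly mixing. -/
theorem Action_wm_of_trans {X : Type*} [MetricSpace X] [CompactSpace X] {ℓ : ℕ}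
    (T : Fin ℓ → (X ≃ₜ X)) (hc : ∀ i j, T i * T j = T j * T i)
    (hact : ∃ z : X × X,
      Dense {w : X × X | ∃ g ∈ Subgroup.closure (Set.range T), (g z.1, g z.2) = w})
    (g : X ≃ₜ X) (hg : g ∈ Subgroup.closure (Set.range T))
    (htr : ∃ x : X, Dense (Set.range fun n : ℤ => (g ^ n) x)) : WeaklyMixing g := by
  have : Nonempty X := ⟨htr.choose⟩
  have hcomm : ∀ a ∈ Subgroup.closure (Set.range T), ∀ b ∈ Subgroup.closure (Set.range T),
      a * b = b * a := by
    have h : IsMulCommutative (Subgroup.closure (Set.range T)) :=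
      Subgroup.isMulCommutative_closure (by
        rintro _ ⟨i, rfl⟩ _ ⟨j, rfl⟩
        exact hc i j)
    intro a ha b hb
    have h1 := h.is_comm.comm (⟨a, ha⟩ : Subgroup.closure (Set.range T)) ⟨b, hb⟩
    exact congrArg Subtype.val h1
  refine WeaklyMixing.of_open ?_
  intro U₁ V₁ U₂ V₂ hU₁ hU₁' hV₁ hV₁' hU₂ hU₂' hV₂ hV₂'
  obtain ⟨z, hz⟩ := hact
  obtain ⟨_, ⟨ha1, ha2⟩, a, ha, rfl⟩ := hz.inter_open_nonempty _ (hU₁.prod hV₁) (hU₁'.prod hV₁')
  obtain ⟨_, ⟨hb1, hb2⟩, b, hb, rfl⟩ := hz.inter_open_nonempty _ (hU₂.prod hV₂) (hU₂'.prod hV₂')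
  simp only at ha1 ha2 hb1 hb2
  set h : X ≃ₜ X := b * a⁻¹ with hh
  have hhG : h ∈ Subgroup.closure (Set.range T) := mul_mem hb (inv_mem ha)
  have hha : ∀ y, h (a y) = b y := by
    intro y
    show (b * a⁻¹) (a y) = b y
    have h1 : (b * a⁻¹) * a = b := by group
    conv_rhs => rw [← h1]
    rfl
  have hUo : IsOpen (U₁ ∩ h ⁻¹' U₂) := hU₁.inter (hU₂.preimage h.continuous)
  have hVo : IsOpen (V₁ ∩ h ⁻¹' V₂) := hV₁.inter (hV₂.preimage h.continuous)
  have hUn : (U₁ ∩ h ⁻¹' U₂).Nonempty := ⟨a z.1, ha1, by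
    show h (a z.1) ∈ U₂
    rw [hha]; exact hb1⟩
  have hVn : (V₁ ∩ h ⁻¹' V₂).Nonempty := ⟨a z.2, ha2, by
    show h (a z.2) ∈ V₂
    rw [hha]; exact hb2⟩
  obtain ⟨x, hx⟩ := htr
  obtain ⟨_, ⟨hk1, hk2⟩, k, rfl⟩ := hx.inter_open_nonempty _ hUo hUn
  obtain ⟨_, ⟨hn1, hn2⟩, n, rfl⟩ := hx.inter_open_nonempty _ hVo hVn
  simp only at hk1 hk2 hn1 hn2
  refine ⟨n - k, ⟨(g ^ k) x, hk1, ?_⟩, ⟨h ((g ^ k) x), hk2, ?_⟩⟩
  · rw [hpow_sub]; exact hn1
  · have h2 : g ^ (n - k) * h = h * g ^ (n - k) := hcomm _ (zpow_mem hg _) _ hhG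
    have h3 : (g ^ (n - k)) (h ((g ^ k) x)) = h ((g ^ (n - k)) ((g ^ k) x)) :=
      DFunLike.congr_fun h2 ((g ^ k) x)
    rw [h3, hpow_sub]
    exact hn2

/-- A weakly mixing homeomorphism has a dense orbit. -/
theorem Action_trans_of_wm {X : Type*} [TopologicalSpace X] {g : X ≃ₜ X}
    (hg : WeaklyMixing g) : ∃ x : X, Dense (Set.range fun n : ℤ => (g ^ n) x) := by
  obtain ⟨z, hz⟩ := hg
  refine ⟨z.1, ?_⟩
  have h1 : DenseRange (fun n : ℤ => ((g ^ n) z.1, (g ^ n) z.2)) := hz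
  have : Nonempty X := ⟨z.1⟩
  exact Prod.fst_surjective.denseRange.comp h1 continuous_fst

/-- Joint transitivity for weakly mixing commutative actions. -/
theorem Action_joint (X : Type) [MetricSpace X] [CompactSpace X] (ℓ : ℕ)
    (T : Fin ℓ → (X ≃ₜ X)) (p : Fin ℓ → Polynomial ℤ)
    (hc : ∀ i j, T i * T j = T j * T i)
    (hmin : ∀ x : X, Dense {y : X | ∃ g ∈ Subgroup.closure (Set.range T), g x = y})
    (hact : ∃ z : X × X,
      Dense {w : X × X | ∃ g ∈ Subgroup.closure (Set.range T), (g z.1, g z.2) = w})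
    (htr : ∀ j : Fin ℓ, ∃ x : X, Dense (Set.range fun n : ℤ => (T j ^ n) x))
    (hdeg : ∀ j, 0 < (p j).natDegree)
    (hind : ∀ i j, i ≠ j → ∀ a b : ℤ, (a ≠ 0 ∨ b ≠ 0) → 0 < (a • p i + b • p j).natDegree)
    (hel : ∀ d : ℕ, (∃ i j, i ≠ j ∧ (p i).natDegree = d ∧ (p j).natDegree = d) →
      ∀ g ∈ Subgroup.closure {g | ∃ j, T j = g ∧ (p j).natDegree = d}, g ≠ 1 →
        ∃ x : X, Dense (Set.range fun n : ℤ => (g ^ n) x)) :
    ∃ S : Set X, IsGδ S ∧ Dense S ∧
      ∀ x ∈ S, Dense (Set.range (fun n : ℤ => fun j : Fin ℓ => (T j ^ ((p j).eval n)) x)) := by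
  have hTG : ∀ j, T j ∈ Subgroup.closure (Set.range T) := fun j =>
    Subgroup.subset_closure ⟨j, rfl⟩
  have hTwm : ∀ j, WeaklyMixing (T j) := fun j =>
    Action_wm_of_trans T hc hact (T j) (hTG j) (htr j)
  have hsub : ∀ d, Subgroup.closure {g | ∃ j, T j = g ∧ (p j).natDegree = d}
      ≤ Subgroup.closure (Set.range T) := by
    intro d
    apply Subgroup.closure_mono
    rintro _ ⟨j, rfl, -⟩
    exact ⟨j, rfl⟩
  refine joint_general X ℓ T p hc hmin ?_ hdeg hind ?_
  · intro j r hr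
    have h1 : WeaklyMixing (T j ^ (r : ℤ)) := (hTwm j).zpow (by exact_mod_cast hr.ne')
    obtain ⟨x, hx⟩ := Action_trans_of_wm h1
    refine ⟨x, ?_⟩
    simpa only [zpow_mul] using hx
  · intro d _ g hg hg1
    by_cases h2 : ∃ i j, i ≠ j ∧ (p i).natDegree = d ∧ (p j).natDegree = d
    · exact Action_wm_of_trans T hc hact g (hsub d hg) (hel d h2 g hg hg1)
    · by_cases hj : ∃ j, (p j).natDegree = d
      · obtain ⟨j, hj⟩ := hj
        have hset : {g | ∃ j, T j = g ∧ (p j).natDegree = d} = {T j} := by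
          ext g
          constructor
          · rintro ⟨i, rfl, hi⟩
            by_cases hij : i = j
            · rw [hij]; rfl
            · exact absurd ⟨i, j, hij, hi, hj⟩ h2
          · rintro rfl
            exact ⟨j, rfl, hj⟩
        rw [hset, Subgroup.mem_closure_singleton] at hg
        obtain ⟨k, rfl⟩ := hg
        have hk : k ≠ 0 := by
          rintro rfl
          exact hg1 (zpow_zero _)
        exact (hTwm j).zpow hk
      · exfalso
        have hset : {g | ∃ j, T j = g ∧ (p j).natDegree = d} = ∅ := by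
          ext g
          constructor
          · rintro ⟨i, -, hi⟩
            exact absurd ⟨i, hi⟩ hj
          · intro h
            exact absurd h (Set.notMem_empty _)
        rw [hset, Subgroup.closure_empty] at hg
        exact hg1 hg

end Pool.Agent.W_helper59_cae956
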